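import Pool.Agent.W805.LR.Stm5

/-! Part FE: two test points are rarely neighbours. -/

set_option autoImplicit false
set_option linter.unusedSectionVars false

namespace Pool.Agent.W839.PD.FE

open Finset Equiv
open Pool.Agent.W805.LR Pool.Agent.W805.PD

/-- indicator -/
noncomputable def ind (p : Prop) : ℝ := open Classical in if p then 1 else 0

lemma ind_pos {p : Prop} (h : p) : ind p = 1 := by simp [ind, h]
lemma ind_neg {p : Prop} (h : ¬ p) : ind p = 0 := by simp [ind, h]
lemma ind_nonneg (p : Prop) : 0 ≤ ind p := by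
  by_cases h : p
  · rw [ind_pos h]; norm_num
  · rw [ind_neg h]
lemma ind_le_one (p : Prop) : ind p ≤ 1 := by
  by_cases h : p
  · rw [ind_pos h]
  · rw [ind_neg h]; norm_num
lemma ind_congr {p q : Prop} (h : p ↔ q) : ind p = ind q := by
  by_cases hp : p
  · rw [ind_pos hp, ind_pos (h.1 hp)]
  · rw [ind_neg hp, ind_neg (fun hq => hp (h.2 hq))]

section avg

lemma uavg_mono {A : Type} [Fintype A] {F G : A → ℝ} (h : ∀ a, F a ≤ G a) : uavg F ≤ uavg G := by
  unfold uavg
  have := Finset.sum_le_sum (fun a (_ : a ∈ univ) => h a)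
  gcongr

lemma uavg_const_le {A : Type} [Fintype A] {c : ℝ} (hc : 0 ≤ c) : uavg (fun _ : A => c) ≤ c := by
  unfold uavg
  rw [Finset.sum_const, nsmul_eq_mul, card_univ]
  rcases Nat.eq_zero_or_pos (Fintype.card A) with h | h
  · rw [h]; simpa using hc
  · have : (0:ℝ) < Fintype.card A := by exact_mod_cast h
    rw [mul_div_assoc, mul_comm, div_mul_cancel₀ _ this.ne']

lemma uavg_add {A : Type} [Fintype A] (F G : A → ℝ) :
    uavg (fun a => F a + G a) = uavg F + uavg G := by
  unfold uavg; rw [Finset.sum_add_distrib, add_div]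

lemma uavg_mul {A : Type} [Fintype A] (c : ℝ) (F : A → ℝ) :
    uavg (fun a => c * F a) = c * uavg F := by
  unfold uavg; rw [← Finset.mul_sum, mul_div_assoc]

lemma uavg_sum {A B : Type} [Fintype A] (s : Finset B) (F : B → A → ℝ) :
    uavg (fun a => ∑ b ∈ s, F b a) = ∑ b ∈ s, uavg (F b) := by
  unfold uavg; rw [Finset.sum_comm, Finset.sum_div]

lemma uavg_comp {A : Type} [Fintype A] (e : A ≃ A) (F : A → ℝ) :
    uavg (fun a => F (e a)) = uavg F := by
  unfold uavg; rw [Equiv.sum_comp e F]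

variable {V : Type} [Fintype V] [DecidableEq V]

lemma avgM_mono {E : Finset V} {F G : Perm V → ℝ} (h : ∀ α ∈ matchings E, F α ≤ G α) :
    avgM E F ≤ avgM E G := by
  unfold avgM
  have := Finset.sum_le_sum h
  gcongr

lemma avgM_const_le {E : Finset V} {c : ℝ} (hc : 0 ≤ c) : avgM E (fun _ => c) ≤ c := by
  unfold avgM
  rw [Finset.sum_const, nsmul_eq_mul]
  rcases Nat.eq_zero_or_pos (matchings E).card with h | h
  · rw [h]; simpa using hc
  · have : (0:ℝ) < (matchings E).card := by exact_mod_cast h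
    rw [mul_div_assoc, mul_comm, div_mul_cancel₀ _ this.ne']

lemma avgM_add (E : Finset V) (F G : Perm V → ℝ) :
    avgM E (fun a => F a + G a) = avgM E F + avgM E G := by
  unfold avgM; rw [Finset.sum_add_distrib, add_div]

lemma avgM_sum {B : Type} (E : Finset V) (s : Finset B) (F : B → Perm V → ℝ) :
    avgM E (fun a => ∑ b ∈ s, F b a) = ∑ b ∈ s, avgM E (F b) := by
  unfold avgM; rw [Finset.sum_comm, Finset.sum_div]

end avg

section first

variable {V : Type} [Fintype V] [DecidableEq V]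

lemma rem_apply (g : Perm V) {a x : V} (hx : x ≠ a) :
    rem g a x = if g x = a then g a else g x := by
  unfold rem
  rw [Perm.mul_apply]
  split_ifs with h
  · rw [h, swap_apply_left]
  · rw [swap_apply_of_ne_of_ne h]
    intro h2
    exact hx (g.injective h2)

/-- the trace sends a point to one of its first iterates -/
lemma tr_first (htr : S_tr) (g : Perm V) : ∀ (B A : Finset V), Aᶜ = B → ∀ x ∈ A, ∀ j : ℕ, 1 ≤ j →
    (g ^ j) x ∈ A → ∃ i, 1 ≤ i ∧ i ≤ j ∧ tr g A x = (g ^ i) x := by
  obtain ⟨-, -, -, t4, -, -, t7, -, -⟩ := htr V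
  intro B
  induction B using Finset.induction_on with
  | empty =>
    intro A hA x _ j hj _
    have hA' : A = univ := by
      rw [← compl_compl A, hA, compl_empty]
    refine ⟨1, le_rfl, hj, ?_⟩
    rw [t4 g A (fun x hx => absurd (hA' ▸ mem_univ x) hx), pow_one]
  | insert a B haB ih =>
    intro A hA x hx j hj hgj
    have haA : a ∉ A := by
      have : a ∈ Aᶜ := hA ▸ mem_insert_self a B
      exact mem_compl.1 this
    have hA1 : (insert a A)ᶜ = B := by
      ext z
      rw [mem_compl, mem_insert, not_or, ← mem_compl (s := A), hA, mem_insert]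
      constructor
      · rintro ⟨h1, h2 | h2⟩
        · exact absurd h2 h1
        · exact h2
      · intro h
        exact ⟨fun h' => haB (h' ▸ h), Or.inr h⟩
    have hAe : A = (insert a A).erase a := (erase_insert haA).symm
    have hxa : x ≠ a := fun h => haA (h ▸ hx)
    rw [hAe, t7, rem_apply _ hxa]
    obtain ⟨i, hi1, hij, hi⟩ := ih (insert a A) hA1 x (mem_insert_of_mem hx) j hj
      (mem_insert_of_mem hgj)
    split_ifs with h
    · have hne : i ≠ j := by
        intro h'
        rw [h', h] at hi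
        exact haA (hi ▸ hgj)
      have hlt : i < j := lt_of_le_of_ne hij hne
      have h3 : (g ^ (j - i)) a = (g ^ j) x := by
        have : a = (g ^ i) x := by rw [← hi, h]
        rw [this, ← Perm.mul_apply, ← pow_add, Nat.sub_add_cancel hij]
      obtain ⟨i', hi1', hij', hi'⟩ := ih (insert a A) hA1 a (mem_insert_self a A) (j - i)
        (by omega) (by rw [h3]; exact mem_insert_of_mem hgj)
      refine ⟨i' + i, by omega, by omega, ?_⟩
      rw [hi', pow_add, Perm.mul_apply, ← hi, h]
    · exact ⟨i, hi1, hij, hi⟩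

/-- points in short nontrivial cycles -/
lemma short_card (g : Perm V) (r : ℕ) (s : Finset V)
    (hs : ∀ x ∈ s, g x ≠ x ∧ ∃ j, 1 ≤ j ∧ j ≤ r ∧ (g ^ j) x = x) :
    s.card ≤ r * Multiset.card g.cycleType := by
  have h1 : Multiset.card g.cycleType = g.cycleFactorsFinset.card := by
    rw [Perm.cycleType_def, Multiset.card_map]; rfl
  rw [h1]
  apply Finset.card_le_mul_card_image_of_maps_to (f := fun x => g.cycleOf x)
  · intro x hx
    rw [Perm.cycleOf_mem_cycleFactorsFinset_iff, Perm.mem_support]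
    exact (hs x hx).1
  · intro c _
    rcases (s.filter fun a => g.cycleOf a = c).eq_empty_or_nonempty with h | ⟨x, hx⟩
    · rw [h]; simp
    · rw [mem_filter] at hx
      obtain ⟨hxs, hxc⟩ := hx
      obtain ⟨hx1, j, hj1, hjr, hj⟩ := hs x hxs
      have hsub : (s.filter fun a => g.cycleOf a = c) ⊆ (range j).image fun k => (g ^ k) x := by
        intro a ha
        rw [mem_filter] at ha
        obtain ⟨has, hac⟩ := ha
        have hsc : g.SameCycle x a := by
          have h2 : (g.cycleOf a) = g.cycleOf x := by rw [hac, hxc]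
          have h3 : a ∈ (g.cycleOf a).support := by
            rw [Perm.mem_support_cycleOf_iff]
            exact ⟨Perm.SameCycle.refl g a, Perm.mem_support.2 (hs a has).1⟩
          rw [h2, Perm.mem_support_cycleOf_iff] at h3
          exact h3.1
        obtain ⟨k, hk⟩ := hsc.exists_nat_pow_eq
        rw [mem_image]
        refine ⟨k % j, mem_range.2 (Nat.mod_lt _ (by omega)), ?_⟩
        have h4 : ∀ q : ℕ, (g ^ (j * q)) x = x := by
          intro q
          induction q with
          | zero => simp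
          | succ q ih => rw [Nat.mul_succ, pow_add, Perm.mul_apply, hj, ih]
        rw [← hk]
        conv_rhs => rw [← Nat.mod_add_div k j, pow_add, Perm.mul_apply, h4]
      calc _ ≤ ((range j).image fun k => (g ^ k) x).card := card_le_card hsub
        _ ≤ (range j).card := card_image_le
        _ ≤ r := by rw [card_range]; exact hjr

end first

section main

variable {V : Type} [Fintype V] [DecidableEq V] {m K : ℕ}

lemma union_eq (y : Ix m K ↪ V) : Sy y ∪ Ey y = univ.image y := by
  ext x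
  simp only [Sy, Ey, mem_union, mem_image, mem_univ, true_and]
  constructor
  · rintro (⟨i, h⟩ | ⟨i, h⟩)
    · exact ⟨_, h⟩
    · exact ⟨_, h⟩
  · rintro ⟨i | i, h⟩
    · exact Or.inl ⟨i, h⟩
    · exact Or.inr ⟨i, h⟩

/-- relabelling of the indices -/
def relab (π : Perm (Ix m K)) : (Ix m K ↪ V) ≃ (Ix m K ↪ V) where
  toFun y := π.toEmbedding.trans y
  invFun y := π⁻¹.toEmbedding.trans y
  left_inv y := by
    ext a
    simp [Perm.inv_def]
  right_inv y := by
    ext a
    simp [Perm.inv_def]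

lemma relab_apply (π : Perm (Ix m K)) (y : Ix m K ↪ V) (a : Ix m K) :
    relab π y a = y (π a) := rfl

lemma ry_relab (h : Perm V) (π : Perm (Ix m K)) (y : Ix m K ↪ V) :
    ry h (relab π y) = ry h y := by
  unfold ry
  rw [union_eq, union_eq]
  congr 1
  ext x
  simp only [mem_image, mem_univ, true_and, relab_apply]
  constructor
  · rintro ⟨a, ha⟩; exact ⟨π a, ha⟩
  · rintro ⟨a, ha⟩; exact ⟨π.symm a, by rw [Equiv.apply_symm_apply, ha]⟩

/-- the point `b` is reached from `a` in at most `r` steps -/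
def fA (h : Perm V) (r : ℕ) (a b : Ix m K) (y : Ix m K ↪ V) : Prop :=
  ∃ j, 1 ≤ j ∧ j ≤ r ∧ (ry h y ^ j) (y a) = y b

lemma fA_sum (h : Perm V) (r : ℕ) (a : Ix m K) (y : Ix m K ↪ V) (s : Finset (Ix m K)) :
    ∑ b ∈ s, ind (fA h r a b y) ≤ r := by
  classical
  have h1 : ∑ b ∈ s, ind (fA h r a b y) = ((s.filter fun b => fA h r a b y).card : ℝ) := by
    rw [Finset.card_filter]
    push_cast
    apply Finset.sum_congr rfl
    intro b _
    by_cases hb : fA h r a b y
    · rw [ind_pos hb, if_pos hb]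
    · rw [ind_neg hb, if_neg hb]
  rw [h1]
  have h2 : (s.filter fun b => fA h r a b y).card ≤
      ((Finset.Icc 1 r).image fun j => (ry h y ^ j) (y a)).card := by
    apply Finset.card_le_card_of_injOn y
    · intro b hb
      rw [Finset.mem_coe, mem_filter] at hb
      obtain ⟨-, j, hj1, hj2, hj⟩ := hb
      rw [Finset.mem_coe, mem_image]
      exact ⟨j, Finset.mem_Icc.2 ⟨hj1, hj2⟩, hj⟩
    · exact y.injective.injOn
  have h3 : ((Finset.Icc 1 r).image fun j => (ry h y ^ j) (y a)).card ≤ r :=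
    card_image_le.trans (by simp)
  exact_mod_cast h2.trans h3

lemma fA_symm (h : Perm V) (r : ℕ) {a b b' : Ix m K} (hb : b ≠ a) (hb' : b' ≠ a) :
    uavg (fun y : Ix m K ↪ V => ind (fA h r a b y)) =
      uavg (fun y : Ix m K ↪ V => ind (fA h r a b' y)) := by
  rw [← uavg_comp (relab (swap b b'))]
  congr 1
  funext y
  apply ind_congr
  unfold fA
  rw [ry_relab]
  simp only [relab_apply, swap_apply_left]
  rw [swap_apply_of_ne_of_ne hb.symm hb'.symm]

lemma pA (h : Perm V) (r : ℕ) (i b : Fin m) (hb : b ≠ i) (hK : 1 ≤ K) :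
    uavg (fun y : Ix m K ↪ V => ind (fA h r (Sum.inl i) (Sum.inl b) y)) ≤ r / (2 * K) := by
  classical
  have hm : 1 ≤ m := Nat.one_le_of_lt i.pos
  set s : Finset (Ix m K) := univ.erase (Sum.inl i) with hs
  have hcard : s.card = m + 2 * K - 1 := by
    rw [hs, card_erase_of_mem (mem_univ _), card_univ]
    simp [mul_comm]
  have h1 : ∑ b' ∈ s, uavg (fun y : Ix m K ↪ V => ind (fA h r (Sum.inl i) b' y)) ≤ r := by
    rw [← uavg_sum]
    exact (uavg_mono fun y => fA_sum h r _ y s).trans (uavg_const_le (by positivity))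
  have h2 : ∑ b' ∈ s, uavg (fun y : Ix m K ↪ V => ind (fA h r (Sum.inl i) b' y)) =
      s.card * uavg (fun y : Ix m K ↪ V => ind (fA h r (Sum.inl i) (Sum.inl b) y)) := by
    rw [Finset.sum_congr rfl (g := fun _ => uavg (fun y : Ix m K ↪ V =>
      ind (fA h r (Sum.inl i) (Sum.inl b) y))), Finset.sum_const, nsmul_eq_mul]
    intro b' hb'
    exact fA_symm h r (ne_of_mem_erase hb') (fun h' => hb (Sum.inl_injective h'))
  rw [h2] at h1
  have hK0 : (0:ℝ) < K := by exact_mod_cast hK
  have h3 : (2 * K : ℝ) ≤ s.card := by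
    have : 2 * K ≤ s.card := by omega
    exact_mod_cast this
  have h0 : 0 ≤ uavg (fun y : Ix m K ↪ V => ind (fA h r (Sum.inl i) (Sum.inl b) y)) :=
    div_nonneg (Finset.sum_nonneg fun y _ => ind_nonneg _) (by positivity)
  rw [le_div_iff₀ (by positivity)]
  nlinarith

/-- the point `a` lies in a short nontrivial cycle -/
def gB (h : Perm V) (r : ℕ) (a : Ix m K) (y : Ix m K ↪ V) : Prop :=
  ry h y (y a) ≠ y a ∧ ∃ j, 1 ≤ j ∧ j ≤ r ∧ (ry h y ^ j) (y a) = y a

lemma gB_sum (h : Perm V) (r : ℕ) (y : Ix m K ↪ V) :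
    ∑ b : Ix m K, ind (gB h r b y) ≤ r * (Zy h y : ℝ) := by
  classical
  have h1 : ∑ b : Ix m K, ind (gB h r b y) =
      (((univ : Finset (Ix m K)).filter fun b => gB h r b y).card : ℝ) := by
    rw [Finset.card_filter]
    push_cast
    apply Finset.sum_congr rfl
    intro b _
    by_cases hb : gB h r b y
    · rw [ind_pos hb, if_pos hb]
    · rw [ind_neg hb, if_neg hb]
  rw [h1]
  have h2 : ((univ : Finset (Ix m K)).filter fun b => gB h r b y).card =
      (((univ : Finset (Ix m K)).filter fun b => gB h r b y).image y).card :=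
    (card_image_of_injective _ y.injective).symm
  have h3 := short_card (ry h y) r (((univ : Finset (Ix m K)).filter fun b => gB h r b y).image y)
    (by
      intro x hx
      rw [mem_image] at hx
      obtain ⟨b, hb, rfl⟩ := hx
      rw [mem_filter] at hb
      exact hb.2)
  rw [h2]
  unfold Zy
  exact_mod_cast h3

lemma gB_symm (h : Perm V) (r : ℕ) (a b : Ix m K) :
    uavg (fun y : Ix m K ↪ V => ind (gB h r a y)) =
      uavg (fun y : Ix m K ↪ V => ind (gB h r b y)) := by
  rw [← uavg_comp (relab (swap a b))]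
  congr 1
  funext y
  apply ind_congr
  unfold gB
  rw [ry_relab]
  simp only [relab_apply, swap_apply_left]

lemma pB (h : Perm V) (r : ℕ) (a : Ix m K) (hK : 1 ≤ K) :
    uavg (fun y : Ix m K ↪ V => ind (gB h r a y)) ≤
      r * uavg (fun y : Ix m K ↪ V => (Zy h y : ℝ)) / (2 * K) := by
  have h1 : ∑ b : Ix m K, uavg (fun y : Ix m K ↪ V => ind (gB h r b y)) ≤
      r * uavg (fun y : Ix m K ↪ V => (Zy h y : ℝ)) := by
    rw [← uavg_sum, ← uavg_mul]
    exact uavg_mono fun y => gB_sum h r y
  have h2 : ∑ b : Ix m K, uavg (fun y : Ix m K ↪ V => ind (gB h r b y)) =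
      ((m + 2 * K : ℕ) : ℝ) * uavg (fun y : Ix m K ↪ V => ind (gB h r a y)) := by
    rw [Finset.sum_congr rfl (g := fun _ => uavg (fun y : Ix m K ↪ V => ind (gB h r a y))),
      Finset.sum_const, nsmul_eq_mul, card_univ]
    · simp [mul_comm]
    · intro b _
      exact gB_symm h r b a
  rw [h2] at h1
  have hK0 : (0:ℝ) < K := by exact_mod_cast hK
  have h0 : 0 ≤ uavg (fun y : Ix m K ↪ V => ind (gB h r a y)) :=
    div_nonneg (Finset.sum_nonneg fun y _ => ind_nonneg _) (by positivity)
  rw [le_div_iff₀ (by positivity)]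
  push_cast at h1
  have hm0 : (0:ℝ) ≤ m := by positivity
  nlinarith

/-- all first iterates are matched with lonely points -/
def cC (h : Perm V) (r : ℕ) (η : ℝ) (i : Fin m) (y : Ix m K ↪ V) (α : Perm V) : Prop :=
  ((Dy h y).card : ℝ) ≤ (1 - η) * (2 * K) ∧ ry h y (y (Sum.inl i)) ≠ y (Sum.inl i) ∧
    (∀ b : Fin m, b ≠ i → ¬ fA h r (Sum.inl i) (Sum.inl b) y) ∧ ¬ gB h r (Sum.inl i) y ∧
    ∀ j, 1 ≤ j → j ≤ r → α ((ry h y ^ j) (y (Sum.inl i))) ∈ Dy h y

/-- iterates of a sampled point are sampled -/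
lemma iter_mem (htr : S_tr) (h : Perm V) (y : Ix m K ↪ V) (x : V) (hx : x ∈ Sy y ∪ Ey y) (j : ℕ) :
    (ry h y ^ j) x ∈ Sy y ∪ Ey y := by
  obtain ⟨-, -, -, -, t5, -, -, -, -⟩ := htr V
  have hfix : ∀ z, z ∉ Sy y ∪ Ey y → ry h y z = z := fun z hz => t5 h _ z hz
  induction j with
  | zero => simpa using hx
  | succ j ih =>
    rw [pow_succ', Perm.mul_apply]
    by_contra hc
    have h1 := (ry h y).injective (hfix _ hc)
    exact hc (by rw [h1]; exact ih)

lemma disj (y : Ix m K ↪ V) : Disjoint (Sy y) (Ey y) := by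
  rw [Finset.disjoint_left]
  intro x h1 h2
  simp only [Sy, Ey, mem_image, mem_univ, true_and] at h1 h2
  obtain ⟨i, hi⟩ := h1
  obtain ⟨j, hj⟩ := h2
  have := y.injective (hi.trans hj.symm)
  exact Sum.inl_ne_inr this

lemma Ey_card (y : Ix m K ↪ V) : (Ey y).card = 2 * K := by
  unfold Ey
  rw [card_image_of_injective]
  · simp [mul_comm]
  · intro a b hab
    exact Sum.inr_injective (y.injective hab)

/-- iterates of a point which is not lonely are in the pairs and not lonely -/
lemma iter_E (htr : S_tr) (h : Perm V) (r : ℕ) (i : Fin m) (y : Ix m K ↪ V)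
    (h1 : ry h y (y (Sum.inl i)) ≠ y (Sum.inl i))
    (hA : ∀ b : Fin m, b ≠ i → ¬ fA h r (Sum.inl i) (Sum.inl b) y)
    (hB : ¬ gB h r (Sum.inl i) y) (j : ℕ) (hj1 : 1 ≤ j) (hjr : j ≤ r) :
    (ry h y ^ j) (y (Sum.inl i)) ∈ Ey y \ Dy h y := by
  have hx : y (Sum.inl i) ∈ Sy y ∪ Ey y := by
    rw [union_eq]; exact mem_image_of_mem _ (mem_univ _)
  have h2 := iter_mem htr h y _ hx j
  have hE : (ry h y ^ j) (y (Sum.inl i)) ∈ Ey y := by
    rw [mem_union] at h2
    rcases h2 with h2 | h2
    · exfalso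
      simp only [Sy, mem_image, mem_univ, true_and] at h2
      obtain ⟨b, hb⟩ := h2
      by_cases hbi : b = i
      · subst hbi
        exact hB ⟨h1, j, hj1, hjr, hb.symm⟩
      · exact hA b hbi ⟨j, hj1, hjr, hb.symm⟩
    · exact h2
  rw [mem_sdiff]
  refine ⟨hE, fun hD => ?_⟩
  unfold Dy at hD
  rw [mem_filter] at hD
  have h3 := hD.2
  rw [← Perm.mul_apply, ← pow_succ', pow_succ, Perm.mul_apply] at h3
  exact h1 ((ry h y ^ j).injective h3)

lemma pC (htr : S_tr) (htl : S_tail) (h : Perm V) (r : ℕ) (η : ℝ) (i : Fin m) (y : Ix m K ↪ V)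
    (hr : 1 ≤ r) (hη : 0 < η) (hη1 : η ≤ 1) (hK : (1 + 2 * r) / η ≤ (K : ℝ)) :
    avgM (Ey y) (fun α => ind (cC h r η i y α)) ≤ (1 - η / 2) ^ r := by
  classical
  have hq : 0 ≤ 1 - η / 2 := by linarith
  by_cases hall : ((Dy h y).card : ℝ) ≤ (1 - η) * (2 * K) ∧
      ry h y (y (Sum.inl i)) ≠ y (Sum.inl i) ∧
      (∀ b : Fin m, b ≠ i → ¬ fA h r (Sum.inl i) (Sum.inl b) y) ∧ ¬ gB h r (Sum.inl i) y
  · obtain ⟨hD, h1, hA, hB⟩ := hall
    set Q : Finset V := (Finset.Icc 1 r).image fun j => (ry h y ^ j) (y (Sum.inl i)) with hQ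
    have hQsub : Q ⊆ Ey y \ Dy h y := by
      intro x hx
      rw [hQ, mem_image] at hx
      obtain ⟨j, hj, rfl⟩ := hx
      rw [Finset.mem_Icc] at hj
      exact iter_E htr h r i y h1 hA hB j hj.1 hj.2
    have hQcard : Q.card = r := by
      rw [hQ, Finset.card_image_of_injOn]
      · simp
      · intro j hj j' hj' hjj
        rw [Finset.mem_coe, Finset.mem_Icc] at hj hj'
        by_contra hne
        wlog hlt : j < j' generalizing j j'
        · exact this hj' hj hjj.symm (Ne.symm hne) (by omega)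
        apply hB
        refine ⟨h1, j' - j, by omega, by omega, ?_⟩
        have h5 : (ry h y ^ j') (y (Sum.inl i)) =
            (ry h y ^ j) ((ry h y ^ (j' - j)) (y (Sum.inl i))) := by
          rw [← Perm.mul_apply, ← pow_add]
          congr 2
          omega
        simp only at hjj
        rw [h5] at hjj
        exact ((ry h y ^ j).injective hjj).symm
    have h6 := (htl V (Ey y) (Dy h y) (filter_subset _ _)
      (by rw [Ey_card]; exact even_two_mul K)).1 r Q (1 - η / 2) hQsub hQcard hq (by linarith)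
      (by
        rw [Ey_card]
        rw [div_le_iff₀ hη] at hK
        push_cast
        have hr0 : (0:ℝ) ≤ r := by positivity
        nlinarith)
    refine le_trans (avgM_mono fun α _ => ?_) h6
    by_cases hc : cC h r η i y α
    · rw [ind_pos hc, if_pos]
      intro x hx
      rw [hQ, mem_image] at hx
      obtain ⟨j, hj, rfl⟩ := hx
      rw [Finset.mem_Icc] at hj
      exact hc.2.2.2.2 j hj.1 hj.2
    · rw [ind_neg hc]
      split_ifs <;> norm_num
  · refine le_trans (avgM_mono (G := fun _ => (0:ℝ)) fun α _ => ?_)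
      ((avgM_const_le le_rfl).trans (pow_nonneg hq r))
    rw [ind_neg]
    intro hc
    exact hall ⟨hc.1, hc.2.1, hc.2.2.1, hc.2.2.2.1⟩

/-- the union bound -/
lemma event (htr : S_tr) (h : Perm V) (r : ℕ) (η : ℝ) (y : Ix m K ↪ V) (α : Perm V)
    (_hr : 1 ≤ r)
    (hD : ((Dy h y).card : ℝ) ≤ (1 - η) * (2 * K)) (x : V) (hx : x ∈ S1y h y)
    (hx2 : r1y h y α x ∈ S1y h y) :
    ∃ i : Fin m, (∃ b : Fin m, b ≠ i ∧ fA h r (Sum.inl i) (Sum.inl b) y) ∨
      gB h r (Sum.inl i) y ∨ cC h r η i y α := by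
  have hx' := hx
  unfold S1y Sy at hx'
  rw [mem_filter, mem_image] at hx'
  obtain ⟨⟨i, -, rfl⟩, h1⟩ := hx'
  refine ⟨i, ?_⟩
  by_cases hA : ∃ b : Fin m, b ≠ i ∧ fA h r (Sum.inl i) (Sum.inl b) y
  · exact Or.inl hA
  by_cases hB : gB h r (Sum.inl i) y
  · exact Or.inr (Or.inl hB)
  right; right
  push Not at hA
  refine ⟨hD, h1, hA, hB, ?_⟩
  intro j hj1 hjr
  by_contra hc
  have hE := iter_E htr h r i y h1 hA hB j hj1 hjr
  have hE1 : (ry h y ^ j) (y (Sum.inl i)) ∈ E1y h y α := by
    unfold E1y; rw [mem_filter]; exact ⟨hE, hc⟩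
  obtain ⟨i', hi1, hij, hi⟩ := tr_first htr (ry h y) _ (E1y h y α ∪ S1y h y) rfl _
    (mem_union_right _ hx) j hj1 (mem_union_left _ hE1)
  have hsub : E1y h y α ∪ S1y h y ⊆ Sy y ∪ Ey y := by
    intro z hz
    rw [mem_union] at hz
    rcases hz with hz | hz
    · unfold E1y at hz
      exact mem_union_right _ (mem_sdiff.1 (mem_filter.1 hz).1).1
    · unfold S1y at hz
      exact mem_union_left _ (mem_filter.1 hz).1
  have h8 := (htr V).2.2.2.2.2.2.2.1 h (E1y h y α ∪ S1y h y) (Sy y ∪ Ey y) hsub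
  have h9 : r1y h y α (y (Sum.inl i)) = (ry h y ^ i') (y (Sum.inl i)) := by
    unfold r1y
    rw [← h8]
    exact hi
  rw [h9] at hx2
  have h10 := iter_E htr h r i y h1 hA hB i' hi1 (hij.trans hjr)
  have h11 : (ry h y ^ i') (y (Sum.inl i)) ∈ Sy y := by
    unfold S1y at hx2; exact (mem_filter.1 hx2).1
  exact Finset.disjoint_left.1 (disj y) h11 (mem_sdiff.1 h10).1

end main

theorem main (htr : S_tr) (_hma : S_match) (htl : S_tail) : S_FE := by
  intro V _ _ m K r h η hm hK hr hη hη1 hKη _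
  have hK0 : (0:ℝ) < K := by exact_mod_cast hK
  have hq : 0 ≤ 1 - η / 2 := by linarith
  -- the bound for given y
  have h1 : ∀ y : Ix m K ↪ V, avgM (Ey y) (fun α =>
      if ((Dy h y).card : ℝ) ≤ (1 - η) * (2 * K) ∧ ∃ x ∈ S1y h y, r1y h y α x ∈ S1y h y
      then (1 : ℝ) else 0) ≤ ∑ i : Fin m, ((∑ b ∈ univ.erase i,
        ind (fA h r (Sum.inl i) (Sum.inl b) y)) + ind (gB h r (Sum.inl i) y) +
        (1 - η / 2) ^ r) := by
    intro y
    have h2 : avgM (Ey y) (fun α =>
      if ((Dy h y).card : ℝ) ≤ (1 - η) * (2 * K) ∧ ∃ x ∈ S1y h y, r1y h y α x ∈ S1y h y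
      then (1 : ℝ) else 0) ≤ avgM (Ey y) (fun α => (∑ i : Fin m, ((∑ b ∈ univ.erase i,
        ind (fA h r (Sum.inl i) (Sum.inl b) y)) + ind (gB h r (Sum.inl i) y))) +
        ∑ i : Fin m, ind (cC h r η i y α)) := by
      apply avgM_mono
      intro α _
      have hsA : ∀ i : Fin m, 0 ≤ ∑ b ∈ univ.erase i, ind (fA h r (Sum.inl i) (Sum.inl b) y) :=
        fun i => Finset.sum_nonneg fun b _ => ind_nonneg _
      have hs1 : ∀ i : Fin m, 0 ≤ (∑ b ∈ univ.erase i,
        ind (fA h r (Sum.inl i) (Sum.inl b) y)) + ind (gB h r (Sum.inl i) y) :=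
        fun i => add_nonneg (hsA i) (ind_nonneg _)
      have hs2 : 0 ≤ ∑ i : Fin m, ind (cC h r η i y α) :=
        Finset.sum_nonneg fun i _ => ind_nonneg _
      split_ifs with hc
      · obtain ⟨hD, x, hx, hx2⟩ := hc
        obtain ⟨i, ⟨b, hbi, hb⟩ | hB | hC⟩ := event htr h r η y α hr hD x hx hx2
        · have e1 : ind (fA h r (Sum.inl i) (Sum.inl b) y) ≤
            ∑ b ∈ univ.erase i, ind (fA h r (Sum.inl i) (Sum.inl b) y) :=
            Finset.single_le_sum (f := fun b : Fin m => ind (fA h r (Sum.inl i) (Sum.inl b) y))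
              (fun b _ => ind_nonneg _) (mem_erase.2 ⟨hbi, mem_univ _⟩)
          have e2 := Finset.single_le_sum (f := fun i : Fin m => (∑ b ∈ univ.erase i,
            ind (fA h r (Sum.inl i) (Sum.inl b) y)) + ind (gB h r (Sum.inl i) y))
            (fun i _ => hs1 i) (mem_univ i)
          have e3 := ind_nonneg (gB h r (Sum.inl i) y)
          rw [ind_pos hb] at e1
          linarith
        · have e2 := Finset.single_le_sum (f := fun i : Fin m => (∑ b ∈ univ.erase i,
            ind (fA h r (Sum.inl i) (Sum.inl b) y)) + ind (gB h r (Sum.inl i) y))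
            (fun i _ => hs1 i) (mem_univ i)
          have e3 := hsA i
          rw [ind_pos hB] at e2
          linarith
        · have e2 := Finset.single_le_sum (f := fun i : Fin m => ind (cC h r η i y α))
            (fun i _ => ind_nonneg _) (mem_univ i)
          rw [ind_pos hC] at e2
          have e4 : 0 ≤ ∑ i : Fin m, ((∑ b ∈ univ.erase i,
            ind (fA h r (Sum.inl i) (Sum.inl b) y)) + ind (gB h r (Sum.inl i) y)) :=
            Finset.sum_nonneg fun i _ => hs1 i
          linarith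
      · exact add_nonneg (Finset.sum_nonneg fun i _ => hs1 i) hs2
    refine h2.trans ?_
    rw [avgM_add, avgM_sum (Ey y) univ (fun i α => ind (cC h r η i y α)), Finset.sum_add_distrib (g := fun _ : Fin m => (1 - η / 2) ^ r)]
    apply add_le_add
    · exact avgM_const_le (Finset.sum_nonneg fun i _ =>
        add_nonneg (Finset.sum_nonneg fun b _ => ind_nonneg _) (ind_nonneg _))
    · exact Finset.sum_le_sum fun i _ => pC htr htl h r η i y hr hη hη1 hKη
  refine (uavg_mono h1).trans ?_
  rw [uavg_sum]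
  have h3 : ∀ i : Fin m, uavg (fun y : Ix m K ↪ V => (∑ b ∈ univ.erase i,
        ind (fA h r (Sum.inl i) (Sum.inl b) y)) + ind (gB h r (Sum.inl i) y) +
        (1 - η / 2) ^ r) ≤ m * r / (2 * K) +
          r * uavg (fun y : Ix m K ↪ V => (Zy h y : ℝ)) / (2 * K) + (1 - η / 2) ^ r := by
    intro i
    rw [uavg_add, uavg_add, uavg_sum]
    apply add_le_add
    · apply add_le_add
      · calc _ ≤ ∑ b ∈ univ.erase i, (r / (2 * K) : ℝ) :=
            Finset.sum_le_sum fun b hb => pA h r i b (ne_of_mem_erase hb) hK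
          _ = ((univ.erase i).card : ℝ) * (r / (2 * K)) := by
            rw [Finset.sum_const, nsmul_eq_mul]
          _ ≤ m * (r / (2 * K)) := by
            have : ((univ.erase i).card : ℝ) ≤ m := by
              have := Finset.card_le_univ (univ.erase i)
              rw [Fintype.card_fin] at this
              exact_mod_cast this
            gcongr
          _ = m * r / (2 * K) := by ring
      · exact pB h r _ hK
    · exact uavg_const_le (pow_nonneg hq r)
  refine (Finset.sum_le_sum fun i _ => h3 i).trans ?_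
  rw [Finset.sum_const, nsmul_eq_mul, card_univ, Fintype.card_fin]

end Pool.Agent.W839.PD.FE
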